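import Pool.Agent.H73.GWT.Stmts

/-! Project GWT, row CT1 (blocks passing a given pair backwards). -/

set_option autoImplicit false

open Classical

namespace GWT

variable {ι G V : Type*} [Fintype ι] [Group G] [MulAction G V] (C : Code ι G V)

theorem CT1 (S : Type*) [Fintype S] (hPAS : PASStmt C S) : CT1Stmt C S := by
  intro e D hD hed κ A hκ0 hκ1 hA hT L θ Q P hθ hQP
  have hne : Q ≠ P := by
    rintro rfl
    have h0 : C.d Q Q = 0 := SimpleGraph.dist_self
    omega
  obtain ⟨q, hq⟩ : ∃ q : ℝ, q = (Fintype.card S : ℝ) := ⟨_, rfl⟩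
  have hq0 : 0 ≤ q := by rw [hq]; exact Nat.cast_nonneg _
  -- the indicator of a type
  obtain ⟨ind, hind⟩ : ∃ ind : ℕ → ℕ → List S → ℝ,
      ind = fun t₁ t₂ z => if Tp C (GWP.ev e z) t₁ t₂ Q P then (1 : ℝ) else 0 := ⟨_, rfl⟩
  have hind0 : ∀ t₁ t₂ z, 0 ≤ ind t₁ t₂ z := by
    intro t₁ t₂ z
    rw [hind]
    dsimp only
    split_ifs
    · exact zero_le_one
    · exact le_rfl
  obtain ⟨F, hF⟩ : ∃ F : (ℕ × ℕ) × (ℕ × ℕ) → List S → ℝ, F = fun i b =>
      if i.1.1 + i.1.2 ≤ L ∧ θ ≤ D * i.1.2 then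
        ind i.2.1 i.2.2 ((b.drop i.1.1).take i.1.2) else 0 := ⟨_, rfl⟩
  have hF0 : ∀ i b, 0 ≤ F i b := by
    intro i b
    rw [hF]
    dsimp only
    split_ifs
    · exact hind0 _ _ _
    · exact le_rfl
  obtain ⟨T, hTd⟩ : ∃ T : Finset ((ℕ × ℕ) × (ℕ × ℕ)),
      T = (Finset.range (L + 1) ×ˢ Finset.range (L + 1)) ×ˢ
        (Finset.range (D + 1) ×ˢ Finset.range (D + 1)) := ⟨_, rfl⟩
  obtain ⟨B, hB⟩ : ∃ B : ℝ, B = A * κ ^ (θ / D) * q ^ L := ⟨_, rfl⟩
  have hB0 : 0 ≤ B := by
    rw [hB]
    positivity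
  -- each term
  have hterm : ∀ i ∈ T, GWP.wsum L (F i) ≤ B := by
    intro i hi
    rw [hTd, Finset.mem_product, Finset.mem_product, Finset.mem_product, Finset.mem_range,
      Finset.mem_range, Finset.mem_range, Finset.mem_range] at hi
    obtain ⟨⟨j, r⟩, ⟨t₁, t₂⟩⟩ := i
    dsimp only at hi
    by_cases hc : j + r ≤ L ∧ θ ≤ D * r
    · obtain ⟨s, hs⟩ : ∃ s : ℕ, L = j + (r + s) := ⟨L - j - r, by omega⟩
      have h1 : GWP.wsum L (F ((j, r), (t₁, t₂))) =
          GWP.wsum j (fun _ : List S => GWP.wsum r (fun z : List S =>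
            q ^ s * ind t₁ t₂ z)) := by
        rw [hs, GWP.wsum_append]
        refine GWP.wsum_congr _ _ _ ?_
        intro u hu
        rw [GWP.wsum_append]
        refine GWP.wsum_congr _ _ _ ?_
        intro z hz
        have h2 : ∀ v : List S, F ((j, r), (t₁, t₂)) (u ++ (z ++ v)) = ind t₁ t₂ z := by
          intro v
          rw [hF]
          dsimp only
          rw [if_pos hc]
          congr 1
          rw [← hu, List.drop_left, ← hz, List.take_left]
        rw [show (fun v : List S => F ((j, r), (t₁, t₂)) (u ++ (z ++ v))) =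
          fun _ => ind t₁ t₂ z from funext h2, GWP.wsum_const, hq]
        ring
      rw [h1, GWP.wsum_const, GWP.wsum_mul, ← hq]
      have h3 : GWP.wsum r (fun z : List S => ind t₁ t₂ z) ≤ A * κ ^ r * q ^ r := by
        rw [hind, hq]
        exact hT r t₁ t₂ Q P (by omega) (by omega)
      have h4 : κ ^ r ≤ κ ^ (θ / D) :=
        pow_le_pow_of_le_one hκ0.le hκ1.le (Nat.div_le_of_le_mul hc.2)
      calc q ^ s * GWP.wsum r (fun z : List S => ind t₁ t₂ z) * q ^ j
          ≤ q ^ s * (A * κ ^ r * q ^ r) * q ^ j := by gcongr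
        _ = A * κ ^ r * q ^ L := by rw [hs, pow_add, pow_add]; ring
        _ ≤ A * κ ^ (θ / D) * q ^ L := by gcongr
        _ = B := hB.symm
    · have h1 : F ((j, r), (t₁, t₂)) = fun _ => 0 := by
        funext b
        rw [hF]
        dsimp only
        rw [if_neg hc]
      rw [h1, GWP.wsum_const, zero_mul]
      exact hB0
  -- the indicator is at most the sum
  have hmain : GWP.wsum L (fun b : List S => if ∃ g : G,
        C.d (g • C.o) Q + C.d Q P + C.d P (g • GWP.ev e b • C.o) = C.d C.o (GWP.ev e b • C.o)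
        then (1 : ℝ) else 0) ≤ GWP.wsum L (fun b : List S => ∑ i ∈ T, F i b) := by
    refine GWP.wsum_le L _ _ ?_
    intro b hb
    by_cases hc : ∃ g : G,
        C.d (g • C.o) Q + C.d Q P + C.d P (g • GWP.ev e b • C.o) = C.d C.o (GWP.ev e b • C.o)
    · rw [if_pos hc]
      obtain ⟨g, hg⟩ := hc
      obtain ⟨u, z, v, t₁, t₂, hb', ht₁, ht₂, hTp, hz⟩ := hPAS e D hed b g Q P hne hg
      have hlen : u.length + z.length + v.length = L := by
        rw [← hb, hb', List.length_append, List.length_append]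
      have hi : ((u.length, z.length), (t₁, t₂)) ∈ T := by
        rw [hTd, Finset.mem_product, Finset.mem_product, Finset.mem_product, Finset.mem_range,
          Finset.mem_range, Finset.mem_range, Finset.mem_range]
        refine ⟨⟨?_, ?_⟩, ?_, ?_⟩ <;> dsimp only <;> omega
      have hF1 : F ((u.length, z.length), (t₁, t₂)) b = 1 := by
        rw [hF]
        dsimp only
        rw [if_pos ⟨by omega, hQP.trans hz⟩, hb', List.append_assoc, List.drop_left,
          List.take_left, hind]
        dsimp only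
        rw [if_pos hTp]
      calc (1 : ℝ) = F ((u.length, z.length), (t₁, t₂)) b := hF1.symm
        _ ≤ ∑ i ∈ T, F i b :=
            Finset.single_le_sum (f := fun i => F i b) (fun i _ => hF0 i b) hi
    · rw [if_neg hc]
      exact Finset.sum_nonneg fun i _ => hF0 i b
  refine hmain.trans ?_
  rw [GWP.wsum_finset]
  refine (Finset.sum_le_sum hterm).trans ?_
  rw [Finset.sum_const, hTd, Finset.card_product, Finset.card_product, Finset.card_product,
    Finset.card_range, Finset.card_range, nsmul_eq_mul, hB, hq]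
  push_cast
  apply le_of_eq
  ring

end GWT
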